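import Mathlib

/-!
# Outer-connected domination of a graph and of its middle graph

For every `m` there is a connected graph `G` with `γ̃_c(M(G)) + m ≤ γ̃_c(G)`: take `k = m + 3` cycles
`a_i p_i b_i q_i` of length four, the edges `b_i x_i` and the edges `x_i a_{i+1}` (`n = 5 k`). If
`C ≠ ∅` is the complement of an outer-connected dominating set of `G`, then every vertex of `C` has
a neighbour outside `C`. So every vertex `p_i, q_i, x_i` of `C` has at most one neighbour in `C` and
every `a_i, b_i` in `C` has at most two, and `|C| ≤ 3`. On the other hand the edges `a_i p_i` together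
with the vertices `b_i, q_i, x_i` form an outer-connected dominating set of `M(G)` of size `4 k`.
-/

set_option autoImplicit false

namespace Pool.Agent.Results.MP_43f51c_co.MiddleGraph

open Finset

/-- `S` is an outer-connected dominating set of `G`: every vertex outside `S` has a neighbour in
`S`, and the graph `G - S` is connected. -/
def IsOuterConnectedDominating {V : Type*} (G : SimpleGraph V) (S : Finset V) : Prop :=
  (∀ v, v ∉ S → ∃ u ∈ S, G.Adj v u) ∧ (G.induce {v | v ∉ S}).Connected

/-- The outer-connected domination number: the least size of an outer-connected dominating set. -/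
noncomputable def outerConnectedDomNum {V : Type*} (G : SimpleGraph V) : ℕ :=
  sInf {k : ℕ | ∃ S : Finset V, IsOuterConnectedDominating G S ∧ S.card = k}

/-- The middle graph `M(G)`: its vertices are the vertices and the edges of `G`; two edges are
adjacent when they share an endpoint, a vertex and an edge when the vertex is an endpoint of the
edge. -/
def middleGraph {V : Type*} (G : SimpleGraph V) : SimpleGraph (V ⊕ G.edgeSet) where
  Adj
    | .inl _, .inl _ => False
    | .inl v, .inr e => v ∈ e.1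
    | .inr e, .inl v => v ∈ e.1
    | .inr e, .inr f => e ≠ f ∧ ∃ v, v ∈ e.1 ∧ v ∈ f.1
  symm := ⟨by
    rintro (v | e) (w | f) h
    · exact h
    · exact h
    · exact h
    · exact ⟨h.1.symm, h.2.imp fun v hv => ⟨hv.2, hv.1⟩⟩⟩
  loopless := ⟨by
    rintro (v | e) h
    · exact h
    · exact h.1 rfl⟩

/-- the vertices: `(i, 0) = a_i`, `(i, 1) = p_i`, `(i, 2) = b_i`, `(i, 3) = q_i`, `(i, 4) = x_i` -/
abbrev W (k : ℕ) := Fin k × Fin 5

/-- `u` is one of the vertices `a_i, b_i` and `v` is one of its neighbours -/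
def R {k : ℕ} (u v : W k) : Prop :=
  (u.2 = 0 ∧ v.1 = u.1 ∧ v.2 = 1) ∨ (u.2 = 0 ∧ v.1 = u.1 ∧ v.2 = 3) ∨
  (u.2 = 0 ∧ v.1.val + 1 = u.1.val ∧ v.2 = 4) ∨
  (u.2 = 2 ∧ v.1 = u.1 ∧ v.2 = 1) ∨ (u.2 = 2 ∧ v.1 = u.1 ∧ v.2 = 3) ∨
  (u.2 = 2 ∧ v.1 = u.1 ∧ v.2 = 4)

lemma R_left {k : ℕ} {u v : W k} (h : R u v) : u.2 = 0 ∨ u.2 = 2 := by
  unfold R at h; tauto

lemma R_right {k : ℕ} {u v : W k} (h : R u v) : v.2 = 1 ∨ v.2 = 3 ∨ v.2 = 4 := by
  unfold R at h; tauto

lemma not_both {k : ℕ} {u v w : W k} (h : R u v) (h' : R v w) : False := by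
  have h1 := R_right h
  have h2 := R_left h'
  rcases h1 with h1 | h1 | h1 <;> rcases h2 with h2 | h2 <;> rw [h1] at h2 <;> revert h2 <;> decide

/-- the graph -/
def G (k : ℕ) : SimpleGraph (W k) where
  Adj u v := R u v ∨ R v u
  symm := ⟨fun _ _ h => h.symm⟩
  loopless := ⟨fun _ h => h.elim (fun h => not_both h h) (fun h => not_both h h)⟩

lemma R1 {k : ℕ} {u v : W k} (h : R u v) (hv : v.2 ≠ 4) : v.1 = u.1 := by
  unfold R at h; tauto

lemma R2 {k : ℕ} {u v : W k} (h : R u v) (hv : v.2 = 4) :
    (u.2 = 0 → v.1.val + 1 = u.1.val) ∧ (u.2 = 2 → v.1 = u.1) := by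
  obtain ⟨i, c⟩ := u
  obtain ⟨j, d⟩ := v
  simp only at hv
  subst hv
  rcases h with h | h | h | h | h | h <;> simp_all

lemma R3 {k : ℕ} {u v : W k} (h : R u v) : (u.2 = 0 ∨ u.2 = 2) ∧ (v.2 = 1 ∨ v.2 = 3 ∨ v.2 = 4) :=
  ⟨R_left h, R_right h⟩

lemma injR {k : ℕ} {u v w : W k} (h : R u v) (h' : R u w) (e : v.2 = w.2) : v = w := by
  by_cases hv : v.2 = 4
  · have hw : w.2 = 4 := by rw [← e, hv]
    have a := R2 h hv
    have b := R2 h' hw
    rcases R_left h with hu | hu
    · have := a.1 hu
      have := b.1 hu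
      exact Prod.ext (Fin.ext (by omega)) e
    · exact Prod.ext ((a.2 hu).trans (b.2 hu).symm) e
  · have hw : w.2 ≠ 4 := by rwa [← e]
    exact Prod.ext ((R1 h hv).trans (R1 h' hw).symm) e

lemma injL {k : ℕ} {u w v : W k} (h : R u v) (h' : R w v) (e : u.2 = w.2) : u = w := by
  by_cases hv : v.2 = 4
  · have a := R2 h hv
    have b := R2 h' hv
    rcases R_left h with hu | hu
    · have := a.1 hu
      have := b.1 (e ▸ hu)
      exact Prod.ext (Fin.ext (by omega)) e
    · exact Prod.ext ((a.2 hu).symm.trans (b.2 (e ▸ hu))) e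
  · exact Prod.ext ((R1 h hv).symm.trans (R1 h' hv)) e

/-- the lower bound: the complement of an outer-connected dominating set has at most three
elements -/
lemma compl_le {k : ℕ} (S : Finset (W k)) (hS : IsOuterConnectedDominating (G k) S) :
    (univ \ S).card ≤ 3 := by
  classical
  obtain ⟨hdom, hconn⟩ := hS
  -- a vertex of type `p, q, x` outside `S` has at most one neighbour outside `S`
  have hone : ∀ u u' v : W k, R u v → R u' v → u ∉ S → u' ∉ S → v ∉ S → u = u' := by
    intro u u' v h h' hu hu' hv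
    obtain ⟨w, hw, ha⟩ := hdom v hv
    have hwv : R w v := by
      rcases ha with ha | ha
      · exact (not_both h ha).elim
      · exact ha
    by_cases e1 : u.2 = w.2
    · exact absurd (injL h hwv e1 ▸ hw) hu
    by_cases e2 : u'.2 = w.2
    · exact absurd (injL h' hwv e2 ▸ hw) hu'
    apply injL h h'
    have a := R_left h
    have b := R_left h'
    have c := R_left hwv
    rcases a with a | a <;> rcases b with b | b <;> rcases c with c | c <;>
      simp_all
  have hreach : ∀ (P : W k → Prop) (x : W k), x ∉ S → P x →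
      (∀ y z, y ∉ S → z ∉ S → P y → (G k).Adj y z → P z) → ∀ z, z ∉ S → P z := by
    intro P x hx hPx hstep z hz
    obtain ⟨w⟩ := hconn.preconnected ⟨x, hx⟩ ⟨z, hz⟩
    have key : ∀ (a b : {v | v ∉ S}) (_ : ((G k).induce {v | v ∉ S}).Walk a b), P a.1 → P b.1 := by
      intro a b w
      induction w with
      | nil => exact id
      | @cons a b c h _ ih => exact fun hP => ih (hstep a.1 b.1 a.2 b.2 hP h)
    exact key _ _ w hPx
  by_cases hex : ∃ u, u ∉ S ∧ (u.2 = 0 ∨ u.2 = 2)
  · obtain ⟨u, hu, hu2⟩ := hex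
    have hall : ∀ z, z ∉ S → z = u ∨ R u z := by
      apply hreach (fun z => z = u ∨ R u z) u hu (Or.inl rfl)
      intro y z hy hz hP ha
      rcases hP with rfl | hP
      · rcases ha with ha | ha
        · exact Or.inr ha
        · have := R_right ha
          rcases this with h | h | h <;> rcases hu2 with h' | h' <;> rw [h] at h' <;>
            exact absurd h' (by decide)
      · rcases ha with ha | ha
        · exact (not_both hP ha).elim
        · exact Or.inl (hone z u y ha hP hz hu hy)
    -- `u` has a neighbour in `S`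
    obtain ⟨w, hw, ha⟩ := hdom u hu
    have hwu : R u w := by
      rcases ha with ha | ha
      · exact ha
      · have := R_right ha
        rcases this with h | h | h <;> rcases hu2 with h' | h' <;> rw [h] at h' <;>
          exact absurd h' (by decide)
    obtain ⟨N, hN⟩ : ∃ N : Finset (W k), ∀ z, z ∈ N ↔ R u z :=
      ⟨univ.filter (fun z => R u z), fun z => by simp⟩
    have hsub : (univ \ S).erase u ⊆ N.erase w := by
      intro z hz
      rw [mem_erase, mem_sdiff] at hz
      rw [mem_erase, hN]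
      refine ⟨?_, ?_⟩
      · rintro rfl
        exact hz.2.2 hw
      · rcases hall z hz.2.2 with h | h
        · exact absurd h hz.1
        · exact h
    have h3 : N.card ≤ ({1, 3, 4} : Finset (Fin 5)).card := by
      apply card_le_card_of_injOn (fun z => z.2)
      · intro z hz
        have := R_right ((hN z).1 hz)
        simpa using this
      · intro y hy z hz e
        exact injR ((hN y).1 hy) ((hN z).1 hz) e
    have h4 : ({1, 3, 4} : Finset (Fin 5)).card = 3 := by decide
    have h5 := card_le_card hsub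
    rw [card_erase_of_mem (mem_sdiff.2 ⟨mem_univ _, hu⟩),
      card_erase_of_mem ((hN w).2 hwu)] at h5
    omega
  · push Not at hex
    -- no vertex of type `a, b` outside `S`
    obtain ⟨⟨x, hx⟩⟩ := hconn.nonempty
    have hall : ∀ z, z ∉ S → z = x := by
      apply hreach (fun z => z = x) x hx rfl
      intro y z hy hz hP ha
      have a := hex y hy
      have b := hex z hz
      rcases ha with ha | ha
      · have := R_left ha; tauto
      · have := R_left ha; tauto
    have : univ \ S ⊆ {x} := by
      intro z hz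
      rw [mem_sdiff] at hz
      rw [mem_singleton]
      exact hall z hz.2
    have := card_le_card this
    rw [card_singleton] at this
    omega

/-! ### The middle graph -/

lemma g01 {k : ℕ} (i : Fin k) : (G k).Adj (i, 0) (i, 1) := Or.inl (Or.inl ⟨rfl, rfl, rfl⟩)
lemma g03 {k : ℕ} (i : Fin k) : (G k).Adj (i, 0) (i, 3) := Or.inl (Or.inr (Or.inl ⟨rfl, rfl, rfl⟩))
lemma g04 {k : ℕ} (i j : Fin k) (h : j.val + 1 = i.val) : (G k).Adj (i, 0) (j, 4) :=
  Or.inl (Or.inr (Or.inr (Or.inl ⟨rfl, h, rfl⟩)))
lemma g21 {k : ℕ} (i : Fin k) : (G k).Adj (i, 2) (i, 1) :=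
  Or.inl (Or.inr (Or.inr (Or.inr (Or.inl ⟨rfl, rfl, rfl⟩))))
lemma g23 {k : ℕ} (i : Fin k) : (G k).Adj (i, 2) (i, 3) :=
  Or.inl (Or.inr (Or.inr (Or.inr (Or.inr (Or.inl ⟨rfl, rfl, rfl⟩)))))
lemma g24 {k : ℕ} (i : Fin k) : (G k).Adj (i, 2) (i, 4) :=
  Or.inl (Or.inr (Or.inr (Or.inr (Or.inr (Or.inr ⟨rfl, rfl, rfl⟩)))))

/-- the edge `uv` as a vertex of the middle graph -/
def ed {k : ℕ} {u v : W k} (h : (G k).Adj u v) : W k ⊕ (G k).edgeSet := .inr ⟨s(u, v), h⟩

/-- the elements of the middle graph outside the outer-connected dominating set -/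
def Keep {k : ℕ} : W k ⊕ (G k).edgeSet → Prop
  | .inl v => v.2 = 0 ∨ v.2 = 1
  | .inr e => ¬ ∃ i : Fin k, e.1 = s((i, 0), (i, 1))

lemma ed_cases {k : ℕ} (e : (G k).edgeSet) : ∃ u v : W k, R u v ∧ ∃ h : (G k).Adj u v,
    e = ⟨s(u, v), h⟩ := by
  obtain ⟨e, he⟩ := e
  induction e using Sym2.ind with
  | _ u v =>
    rcases he with h | h
    · exact ⟨u, v, h, Or.inl h, rfl⟩
    · exact ⟨v, u, h, Or.inl h, Subtype.ext Sym2.eq_swap⟩

lemma middle_le (k : ℕ) (hk : 1 ≤ k) : outerConnectedDomNum (middleGraph (G k)) ≤ 4 * k := by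
  classical
  set S : Finset (W k ⊕ (G k).edgeSet) := univ.filter (fun x => ¬ Keep x) with hS
  have hmem : ∀ x, x ∉ S ↔ Keep x := by intro x; simp [hS]
  have hcard : S.card ≤ 4 * k := by
    let f : Fin k × Fin 4 → W k ⊕ (G k).edgeSet := fun x =>
      if x.2 = 0 then ed (g01 x.1) else if x.2 = 1 then .inl (x.1, 2) else
      if x.2 = 2 then .inl (x.1, 3) else .inl (x.1, 4)
    have hsub : S ⊆ univ.image f := by
      intro x hx
      rw [hS, mem_filter] at hx
      have hx := hx.2
      rw [mem_image]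
      rcases x with ⟨i, c⟩ | e
      · have hc : c = 2 ∨ c = 3 ∨ c = 4 := by
          simp only [Keep] at hx
          revert hx
          fin_cases c <;> simp
        rcases hc with rfl | rfl | rfl
        · exact ⟨(i, 1), mem_univ _, rfl⟩
        · exact ⟨(i, 2), mem_univ _, rfl⟩
        · exact ⟨(i, 3), mem_univ _, rfl⟩
      · simp only [Keep, not_not] at hx
        obtain ⟨i, hi⟩ := hx
        refine ⟨(i, 0), mem_univ _, ?_⟩
        show ed (g01 i) = _
        unfold ed
        congr 1
        exact Subtype.ext hi.symm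
    refine (card_le_card hsub).trans (card_image_le.trans ?_)
    rw [card_univ, Fintype.card_prod, Fintype.card_fin, Fintype.card_fin]
    omega
  refine le_trans (Nat.sInf_le ⟨S, ⟨?_, ?_⟩, rfl⟩) hcard
  · -- domination
    intro x hx
    rw [hmem] at hx
    rcases x with ⟨i, c⟩ | e
    · refine ⟨ed (g01 i), ?_, ?_⟩
      · rw [hS, mem_filter]
        exact ⟨mem_univ _, fun h => h ⟨i, rfl⟩⟩
      · show (i, c) ∈ s((i, 0), (i, 1))
        rcases hx with h | h
        · simp only at h
          rw [h]; simp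
        · simp only at h
          rw [h]; simp
    · obtain ⟨u, v, hR, hadj, rfl⟩ := ed_cases e
      by_cases hu : u.2 = 2
      · refine ⟨.inl u, ?_, ?_⟩
        · rw [hS, mem_filter]
          refine ⟨mem_univ _, fun h => ?_⟩
          rcases h with h | h <;> rw [hu] at h <;> exact absurd h (by decide)
        · show u ∈ s(u, v)
          simp
      · by_cases hv : v.2 = 1
        · exfalso
          have hu0 : u.2 = 0 := by
            rcases R_left hR with h | h
            · exact h
            · exact absurd h hu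
          have h1 : v.1 = u.1 := R1 hR (by rw [hv]; decide)
          apply hx
          refine ⟨u.1, ?_⟩
          show s(u, v) = _
          have hu' : u = (u.1, 0) := Prod.ext rfl hu0
          have hv' : v = (u.1, 1) := Prod.ext h1 hv
          rw [← hu', ← hv']
        · refine ⟨.inl v, ?_, ?_⟩
          · rw [hS, mem_filter]
            refine ⟨mem_univ _, fun h => ?_⟩
            rcases h with h | h
            · rcases R_right hR with h' | h' | h' <;> rw [h] at h' <;> exact absurd h' (by decide)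
            · exact hv h
          · show v ∈ s(u, v)
            simp
  · -- connectedness
    let M := (middleGraph (G k)).induce {v | v ∉ S}
    let Rch : (x y : W k ⊕ (G k).edgeSet) → Prop := fun x y =>
      ∃ (hx : x ∉ S) (hy : y ∉ S), M.Reachable ⟨x, hx⟩ ⟨y, hy⟩
    have rsymm : ∀ {x y}, Rch x y → Rch y x := fun ⟨hx, hy, h⟩ => ⟨hy, hx, h.symm⟩
    have rtrans : ∀ {x y z}, Rch x y → Rch y z → Rch x z :=
      fun ⟨hx, _, h⟩ ⟨_, hz, h'⟩ => ⟨hx, hz, h.trans h'⟩
    have radj : ∀ {x y}, Keep x → Keep y → (middleGraph (G k)).Adj x y → Rch x y := by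
      intro x y hx hy ha
      refine ⟨(hmem x).2 hx, (hmem y).2 hy, SimpleGraph.Adj.reachable ?_⟩
      exact ha
    have k0 : ∀ i : Fin k, Keep (.inl (i, 0) : W k ⊕ (G k).edgeSet) := fun i => Or.inl rfl
    have k1 : ∀ i : Fin k, Keep (.inl (i, 1) : W k ⊕ (G k).edgeSet) := fun i => Or.inr rfl
    have k03 : ∀ i : Fin k, Keep (ed (g03 i)) := by
      rintro i ⟨j, hj⟩; simp at hj
    have k04 : ∀ (i j : Fin k) (h : j.val + 1 = i.val), Keep (ed (g04 i j h)) := by
      rintro i j h ⟨l, hj⟩; simp at hj
    have k21 : ∀ i : Fin k, Keep (ed (g21 i)) := by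
      rintro i ⟨j, hj⟩; simp at hj
    have k23 : ∀ i : Fin k, Keep (ed (g23 i)) := by
      rintro i ⟨j, hj⟩; simp at hj
    have k24 : ∀ i : Fin k, Keep (ed (g24 i)) := by
      rintro i ⟨j, hj⟩; simp at hj
    have share : ∀ {u v u' v' : W k} (h : (G k).Adj u v) (h' : (G k).Adj u' v'),
        s(u, v) ≠ s(u', v') → ∀ w, w ∈ s(u, v) → w ∈ s(u', v') →
        (middleGraph (G k)).Adj (ed h) (ed h') := by
      intro u v u' v' h h' hne w h1 h2
      exact ⟨fun e => hne (congrArg Subtype.val e), w, h1, h2⟩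
    have r1 : ∀ i, Rch (.inl (i, 1)) (ed (g21 i)) := fun i =>
      radj (k1 i) (k21 i) (show (i, 1) ∈ s((i, 2), (i, 1)) by simp)
    have r23 : ∀ i, Rch (ed (g23 i)) (ed (g21 i)) := fun i =>
      radj (k23 i) (k21 i) (share _ _ (by simp) (i, 2) (by simp) (by simp))
    have r24 : ∀ i, Rch (ed (g24 i)) (ed (g21 i)) := fun i =>
      radj (k24 i) (k21 i) (share _ _ (by simp) (i, 2) (by simp) (by simp))
    have r03 : ∀ i, Rch (ed (g03 i)) (ed (g21 i)) := fun i =>
      rtrans (radj (k03 i) (k23 i) (share _ _ (by simp) (i, 3) (by simp) (by simp)))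
        (r23 i)
    have r0 : ∀ i, Rch (.inl (i, 0)) (ed (g21 i)) := fun i =>
      rtrans (radj (k0 i) (k03 i) (show (i, 0) ∈ s((i, 0), (i, 3)) by simp)) (r03 i)
    have r04 : ∀ (i j : Fin k) (h : j.val + 1 = i.val), Rch (ed (g04 i j h)) (ed (g21 j)) :=
      fun i j h => rtrans (radj (k04 i j h) (k24 j)
        (share _ _ (by simp) (j, 4) (by simp) (by simp))) (r24 j)
    have r04' : ∀ (i j : Fin k) (h : j.val + 1 = i.val), Rch (ed (g04 i j h)) (ed (g21 i)) :=
      fun i j h => rtrans (radj (k04 i j h) (k03 i)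
        (share _ _ (by simp) (i, 0) (by simp) (by simp))) (r03 i)
    have hstep : ∀ (n : ℕ) (hn : n < k), Rch (ed (g21 ⟨n, hn⟩)) (ed (g21 ⟨0, by omega⟩)) := by
      intro n
      induction n with
      | zero =>
        intro hn
        exact ⟨(hmem _).2 (k21 _), (hmem _).2 (k21 _), SimpleGraph.Reachable.refl _⟩
      | succ n ih =>
        intro hn
        exact rtrans (rsymm (r04' ⟨n + 1, hn⟩ ⟨n, by omega⟩ rfl))
          (rtrans (r04 ⟨n + 1, hn⟩ ⟨n, by omega⟩ rfl) (ih (by omega)))
    have hall : ∀ x, Keep x → Rch x (ed (g21 ⟨0, by omega⟩)) := by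
      intro x hx
      rcases x with ⟨i, c⟩ | e
      · rcases hx with h | h
        · simp only at h
          subst h
          exact rtrans (r0 i) (hstep i.val i.isLt)
        · simp only at h
          subst h
          exact rtrans (r1 i) (hstep i.val i.isLt)
      · obtain ⟨⟨i, c⟩, ⟨j, d⟩, hR, hadj, rfl⟩ := ed_cases e
        rcases hR with h | h | h | h | h | h <;> obtain ⟨h1, h2, h3⟩ := h <;>
          simp only at h1 h2 h3 <;> subst h1 h3
        · subst h2
          exact absurd ⟨_, rfl⟩ hx
        · subst h2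
          exact rtrans (r03 _) (hstep _ (Fin.isLt _))
        · exact rtrans (r04 i j h2) (hstep _ (Fin.isLt _))
        · subst h2
          exact hstep _ (Fin.isLt _)
        · subst h2
          exact rtrans (r23 _) (hstep _ (Fin.isLt _))
        · subst h2
          exact rtrans (r24 _) (hstep _ (Fin.isLt _))
    rw [SimpleGraph.connected_iff]
    refine ⟨?_, ⟨⟨_, (hmem _).2 (k21 ⟨0, by omega⟩)⟩⟩⟩
    intro x y
    obtain ⟨_, _, h⟩ := rtrans (hall x.1 ((hmem _).1 x.2)) (rsymm (hall y.1 ((hmem _).1 y.2)))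
    exact h

lemma conn (k : ℕ) (hk : 1 ≤ k) : (G k).Connected := by
  have h0 : ∀ (n : ℕ) (hn : n < k), (G k).Reachable (⟨n, hn⟩, 2) (⟨0, by omega⟩, 2) := by
    intro n
    induction n with
    | zero => intro hn; exact SimpleGraph.Reachable.refl _
    | succ n ih =>
      intro hn
      have h1 := (g21 (⟨n + 1, hn⟩ : Fin k)).reachable
      have h2 := (g01 (⟨n + 1, hn⟩ : Fin k)).reachable
      have h3 := (g04 (⟨n + 1, hn⟩ : Fin k) ⟨n, by omega⟩ rfl).reachable
      have h4 := (g24 (⟨n, by omega⟩ : Fin k)).reachable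
      exact h1.trans (h2.symm.trans (h3.trans (h4.symm.trans (ih (by omega)))))
  have hall : ∀ x : W k, (G k).Reachable x (⟨0, by omega⟩, 2) := by
    rintro ⟨i, c⟩
    refine SimpleGraph.Reachable.trans ?_ (h0 i.val i.isLt)
    have h1 := (g21 i).reachable
    have h2 := (g01 i).reachable
    have h3 := (g23 i).reachable
    have h4 := (g24 i).reachable
    fin_cases c
    · exact h2.trans h1.symm
    · exact h1.symm
    · exact SimpleGraph.Reachable.refl _
    · exact h3.symm
    · exact h4.symm
  rw [SimpleGraph.connected_iff]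
  exact ⟨fun x y => (hall x).trans (hall y).symm, ⟨(⟨0, by omega⟩, 2)⟩⟩

/-- For every `m` there is a connected graph `G` (with at least two vertices) such that the
outer-connected domination number of the middle graph `M(G)` is smaller than that of `G` by at
least `m`. -/
theorem result (m : ℕ) : ∃ (V : Type) (_ : Fintype V) (G : SimpleGraph V), G.Connected ∧
    2 ≤ Fintype.card V ∧ outerConnectedDomNum (middleGraph G) + m ≤ outerConnectedDomNum G := by
  classical
  refine ⟨W (m + 3), inferInstance, G (m + 3), conn _ (by omega), ?_, ?_⟩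
  · rw [Fintype.card_prod, Fintype.card_fin, Fintype.card_fin]; omega
  · have h1 := middle_le (m + 3) (by omega)
    have hne : {k : ℕ | ∃ S : Finset (W (m + 3)), IsOuterConnectedDominating (G (m + 3)) S ∧
        S.card = k}.Nonempty := by
      let v : W (m + 3) := (⟨0, by omega⟩, 2)
      refine ⟨_, univ.erase v, ⟨?_, ?_⟩, rfl⟩
      · intro w hw
        have hwv : w = v := by
          by_contra h
          exact hw (mem_erase.2 ⟨h, mem_univ _⟩)
        rw [hwv]
        exact ⟨(⟨0, by omega⟩, 1), mem_erase.2 ⟨by simp [v], mem_univ _⟩, g21 _⟩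
      · rw [SimpleGraph.connected_iff]
        have hsub : ∀ x : {w | w ∉ univ.erase v}, x.1 = v := by
          rintro ⟨w, hw⟩
          by_contra h
          exact hw (mem_erase.2 ⟨h, mem_univ _⟩)
        refine ⟨fun x y => ?_, ⟨⟨v, by simp⟩⟩⟩
        have : x = y := Subtype.ext ((hsub x).trans (hsub y).symm)
        rw [this]
    obtain ⟨S, hS, hc⟩ := Nat.sInf_mem hne
    have h2 := compl_le S hS
    rw [card_sdiff_of_subset (subset_univ _), card_univ, Fintype.card_prod, Fintype.card_fin,
      Fintype.card_fin] at h2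
    have h3 : outerConnectedDomNum (G (m + 3)) = S.card := hc.symm
    omega

end Pool.Agent.Results.MP_43f51c_co.MiddleGraph
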